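import Pool.Agent.N236.RT.Stm

/-!
# Project RT, part GAL: the factors over `Qb` of an irreducible rational polynomial are conjugate
-/

set_option autoImplicit false

namespace Pool.Agent.N835.RT

open MvPolynomial Pool.Agent.N236.RT

lemma alg_inst : Algebra.IsAlgebraic ℚ Qb := AlgebraicClosure.isAlgebraic ℚ

lemma normal_inst : Normal ℚ Qb := by
  have h1 := alg_inst
  have h2 : IsAlgClosure ℚ Qb := ⟨inferInstance, h1⟩
  exact IsAlgClosure.normal ℚ Qb

lemma gal_inst : IsGalois ℚ Qb := by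
  have h1 := alg_inst
  have := normal_inst
  exact ⟨⟩

/-- a polynomial fixed by all automorphisms is rational -/
lemma rat_of_fixed (P : Pol Qb) (h : ∀ τ : Qb ≃ₐ[ℚ] Qb, gal τ P = P) : ∃ Q : Pol ℚ, up Q = P := by
  have hG := gal_inst
  have h1 : P ∈ Set.range (MvPolynomial.map (algebraMap ℚ Qb)) := by
    rw [MvPolynomial.mem_range_map_iff_coeffs_subset]
    intro c hc
    obtain ⟨m, _, rfl⟩ := (mem_coeffs_iff).1 hc
    rw [InfiniteGalois.mem_range_algebraMap_iff_fixed]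
    intro τ
    have h2 := congrArg (coeff m) (h τ)
    unfold gal at h2
    rw [coeff_map] at h2
    exact h2
  obtain ⟨Q, hQ⟩ := h1
  exact ⟨Q, hQ⟩

/-- a polynomial with the coefficients in a finite extension -/
lemma descend (f : Pol Qb) : ∃ (E : IntermediateField ℚ Qb) (_ : FiniteDimensional ℚ E)
    (fE : Pol E), MvPolynomial.map (algebraMap E Qb) fE = f := by
  classical
  have h0 := alg_inst
  refine ⟨IntermediateField.adjoin ℚ (f.coeffs : Set Qb), ?_, ?_⟩
  · exact IntermediateField.finiteDimensional_adjoin fun x _ => Algebra.IsIntegral.isIntegral x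
  · have h1 : f ∈ Set.range (MvPolynomial.map (algebraMap
      (IntermediateField.adjoin ℚ (f.coeffs : Set Qb)) Qb)) := by
      rw [MvPolynomial.mem_range_map_iff_coeffs_subset]
      intro c hc
      exact ⟨⟨c, IntermediateField.subset_adjoin ℚ _ hc⟩, rfl⟩
    obtain ⟨fE, hfE⟩ := h1
    exact ⟨fE, hfE⟩

/-- every embedding of `E` comes from an automorphism -/
lemma extend (E : IntermediateField ℚ Qb) (σ : E →ₐ[ℚ] Qb) :
    ∃ τ : Qb ≃ₐ[ℚ] Qb, ∀ x : E, τ (x : Qb) = σ x := by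
  have hN := normal_inst
  refine ⟨AlgEquiv.ofBijective (σ.liftNormal Qb) (AlgHom.normal_bijective ℚ Qb Qb _), fun x => ?_⟩
  exact σ.liftNormal_commutes Qb x

/-- a linear functional applied to the coefficients -/
noncomputable def pis (π : Qb →ₗ[ℚ] ℚ) (A : Pol Qb) : Pol ℚ :=
  ∑ m ∈ A.support, monomial m (π (coeff m A))

lemma coeff_pis (π : Qb →ₗ[ℚ] ℚ) (A : Pol Qb) (m : Fin 2 →₀ ℕ) :
    coeff m (pis π A) = π (coeff m A) := by
  classical
  unfold pis
  rw [coeff_sum]
  simp only [coeff_monomial]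
  rw [Finset.sum_ite_eq']
  split_ifs with h
  · rfl
  · rw [notMem_support_iff.1 h, map_zero]

lemma pis_mul (π : Qb →ₗ[ℚ] ℚ) (A : Pol Qb) (Q : Pol ℚ) : pis π (A * up Q) = pis π A * Q := by
  classical
  ext m
  rw [coeff_pis, coeff_mul, coeff_mul, map_sum]
  refine Finset.sum_congr rfl fun x _ => ?_
  unfold up
  rw [coeff_pis, coeff_map, mul_comm, ← Algebra.smul_def, map_smul, smul_eq_mul, mul_comm]

lemma pis_deg (π : Qb →ₗ[ℚ] ℚ) (A : Pol Qb) : (pis π A).totalDegree ≤ A.totalDegree := by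
  classical
  apply Finset.sup_mono
  intro m hm
  rw [mem_support_iff, coeff_pis] at hm
  rw [mem_support_iff]
  intro h
  rw [h, map_zero] at hm
  exact hm rfl

lemma up_totalDegree (F : Pol ℚ) : (up F).totalDegree = F.totalDegree := by
  unfold up totalDegree
  rw [support_map_of_injective _ (algebraMap ℚ Qb).injective]

lemma up_ne {F : Pol ℚ} (h : F ≠ 0) : up F ≠ 0 := by
  intro h1
  apply h
  apply MvPolynomial.map_injective (algebraMap ℚ Qb) (algebraMap ℚ Qb).injective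
  rw [map_zero]
  exact h1

lemma deg_pos {f : Pol Qb} (hf : Irreducible f) : 1 ≤ f.totalDegree := by
  by_contra h
  have h0 : f.totalDegree = 0 := by omega
  rw [totalDegree_eq_zero_iff_eq_C] at h0
  apply hf.not_isUnit
  rw [isUnit_iff_eq_C_of_isReduced]
  refine ⟨_, ?_, h0⟩
  rw [isUnit_iff_ne_zero]
  intro h1
  rw [h1, C_0] at h0
  exact hf.ne_zero h0

/-- common factors descend -/
lemma dvd_of_common {F Q : Pol ℚ} {f : Pol Qb} (hF : Irreducible F) (hf : Irreducible f)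
    (h1 : f ∣ up F) (h2 : f ∣ up Q) : F ∣ Q := by
  obtain ⟨a, ha⟩ := h1
  obtain ⟨b, hb⟩ := h2
  have hF0 := up_ne hF.ne_zero
  have ha0 : a ≠ 0 := by
    rintro rfl
    rw [mul_zero] at ha
    exact hF0 ha
  have hdeg : (up F).totalDegree = f.totalDegree + a.totalDegree := by
    rw [ha, totalDegree_mul_of_isDomain hf.ne_zero ha0]
  have hd := deg_pos hf
  have hex : ∃ m, coeff m a ≠ 0 := by
    by_contra hc
    push Not at hc
    apply ha0
    ext m
    rw [hc m, coeff_zero]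
  obtain ⟨m, hm⟩ := hex
  obtain ⟨π, hπ⟩ : ∃ π : Qb →ₗ[ℚ] ℚ, π (coeff m a) ≠ 0 := by
    by_contra hc
    push Not at hc
    exact hm ((Module.forall_dual_apply_eq_zero_iff ℚ _).1 hc)
  have heq : pis π a * Q = pis π b * F := by
    rw [← pis_mul, ← pis_mul, ha, hb]
    congr 1
    ring
  have hp0 : pis π a ≠ 0 := by
    intro h
    apply hπ
    rw [← coeff_pis, h, coeff_zero]
  have hprime : Prime F := hF.prime
  have hdvd : F ∣ pis π a * Q := ⟨pis π b, by rw [heq, mul_comm]⟩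
  rcases hprime.dvd_or_dvd hdvd with h | h
  · exfalso
    obtain ⟨c, hc⟩ := h
    have hc0 : c ≠ 0 := by
      rintro rfl
      rw [mul_zero] at hc
      exact hp0 hc
    have e1 : (pis π a).totalDegree = F.totalDegree + c.totalDegree := by
      rw [hc, totalDegree_mul_of_isDomain hF.ne_zero hc0]
    have e2 := pis_deg π a
    rw [up_totalDegree] at hdeg
    omega
  · exact h

lemma gal_irr {f : Pol Qb} (hf : Irreducible f) (τ : Qb ≃ₐ[ℚ] Qb) : Irreducible (gal τ f) := by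
  have h : gal τ f = MvPolynomial.mapEquiv (Fin 2) (τ : Qb ≃+* Qb) f := rfl
  rw [h, MulEquiv.irreducible_iff]
  exact hf

theorem t_gal : S_GAL := by
  classical
  intro F f g hF hf hg hfF hgF
  obtain ⟨E, hE, fE, hfE⟩ := descend f
  set PP : Pol Qb := ∏ σ : E →ₐ[ℚ] Qb, MvPolynomial.map (σ : E →+* Qb) fE with hPP
  have hfix : ∀ τ : Qb ≃ₐ[ℚ] Qb, gal τ PP = PP := by
    intro τ
    unfold gal
    rw [hPP, map_prod]
    refine Fintype.prod_equiv (⟨fun σ => (τ : Qb →ₐ[ℚ] Qb).comp σ,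
      fun σ => (τ.symm : Qb →ₐ[ℚ] Qb).comp σ, ?_, ?_⟩ : (E →ₐ[ℚ] Qb) ≃ (E →ₐ[ℚ] Qb)) _ _ ?_
    · intro σ
      ext x
      simp
    · intro σ
      ext x
      simp
    · intro σ
      rw [MvPolynomial.map_map]
      exact congrArg (fun φ : E →+* Qb => MvPolynomial.map φ fE) (RingHom.ext fun x => rfl)
  obtain ⟨Q, hQ⟩ := rat_of_fixed PP hfix
  have hfQ : f ∣ up Q := by
    have e : f = MvPolynomial.map ((E.val : E →ₐ[ℚ] Qb) : E →+* Qb) fE := by
      rw [← hfE]
      exact congrArg (fun φ : E →+* Qb => MvPolynomial.map φ fE) (RingHom.ext fun x => rfl)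
    have e2 : MvPolynomial.map ((E.val : E →ₐ[ℚ] Qb) : E →+* Qb) fE ∣ PP := by
      rw [hPP]
      exact Finset.dvd_prod_of_mem (fun σ : E →ₐ[ℚ] Qb => MvPolynomial.map (σ : E →+* Qb) fE)
        (Finset.mem_univ E.val)
    rw [hQ, e]
    exact e2
  obtain ⟨H, hH⟩ := dvd_of_common hF hf hfF hfQ
  have hgPP : g ∣ PP := by
    rw [← hQ, hH]
    unfold up
    rw [map_mul]
    exact Dvd.dvd.mul_right hgF _
  obtain ⟨σ, _, hσ⟩ := hg.prime.exists_mem_finset_dvd hgPP
  obtain ⟨τ, hτ⟩ := extend E σ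
  refine ⟨τ, ?_⟩
  have e : gal τ f = MvPolynomial.map (σ : E →+* Qb) fE := by
    rw [← hfE]
    unfold gal
    rw [MvPolynomial.map_map]
    exact congrArg (fun φ : E →+* Qb => MvPolynomial.map φ fE) (RingHom.ext fun x => hτ x)
  rw [← e] at hσ
  exact (hg.associated_of_dvd (gal_irr hf τ) hσ).symm

/-- the support lies on the line `u m₀ + v m₁ = w` -/
def Ln {R : Type*} [CommSemiring R] (u v w : ℤ) (P : Pol R) : Prop :=
  ∀ m ∈ P.support, u * (m 0 : ℤ) + v * (m 1 : ℤ) = w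

lemma Ln_mul {R : Type*} [CommSemiring R] {u v w w' : ℤ} {P Q : Pol R} (hP : Ln u v w P)
    (hQ : Ln u v w' Q) : Ln u v (w + w') (P * Q) := by
  classical
  intro m hm
  have h := MvPolynomial.support_mul P Q hm
  rw [Finset.mem_add] at h
  obtain ⟨a, ha, b, hb, rfl⟩ := h
  have h1 := hP a ha
  have h2 := hQ b hb
  rw [Finsupp.add_apply, Finsupp.add_apply]
  push_cast
  linear_combination h1 + h2

lemma Ln_unit {u v : ℤ} {P : Pol Qb} (hP : IsUnit P) : Ln u v 0 P := by
  classical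
  rw [isUnit_iff_eq_C_of_isReduced] at hP
  obtain ⟨r, _, rfl⟩ := hP
  intro m hm
  rw [mem_support_iff, coeff_C] at hm
  have : 0 = m := by
    by_contra h
    rw [if_neg h] at hm
    exact hm rfl
  subst this
  simp

lemma Ln_gal {u v w : ℤ} {P : Pol Qb} (hP : Ln u v w P) (τ : Qb ≃ₐ[ℚ] Qb) : Ln u v w (gal τ P) := by
  intro m hm
  apply hP m
  rw [mem_support_iff] at hm ⊢
  intro h
  apply hm
  unfold gal
  rw [coeff_map, h, map_zero]

theorem t_colf (h : S_GAL) : S_COLF := by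
  classical
  intro F f hF hf hfF ⟨u, v, w, huv, hw⟩
  have hfac : ∀ g : Pol Qb, Irreducible g → g ∣ up F → ∃ w', Ln u v w' g := by
    intro g hg hgF
    obtain ⟨τ, hτ⟩ := h F f g hF hf hg hfF hgF
    obtain ⟨c, hc⟩ := hτ
    refine ⟨w + 0, ?_⟩
    rw [← hc]
    exact Ln_mul (Ln_gal hw τ) (Ln_unit c.isUnit)
  have hind : ∀ P : Pol Qb, P ≠ 0 → (∀ g : Pol Qb, Irreducible g → g ∣ P → ∃ w', Ln u v w' g) →
      ∃ w', Ln u v w' P := by
    intro P
    induction P using WfDvdMonoid.induction_on_irreducible with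
    | zero => intro h0; exact absurd rfl h0
    | unit x hx => intro _ _; exact ⟨0, Ln_unit hx⟩
    | mul a i ha hi ih =>
      intro _ h1
      obtain ⟨w1, hw1⟩ := h1 i hi (dvd_mul_right i a)
      obtain ⟨w2, hw2⟩ := ih ha fun g hg hga => h1 g hg (Dvd.dvd.mul_left hga i)
      exact ⟨w1 + w2, Ln_mul hw1 hw2⟩
  obtain ⟨w', hw'⟩ := hind (up F) (up_ne hF.ne_zero) hfac
  refine ⟨u, v, w', huv, fun m hm => hw' m ?_⟩
  rw [mem_support_iff] at hm ⊢
  unfold up
  rw [coeff_map]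
  intro h0
  exact hm ((algebraMap ℚ Qb).injective (by rw [h0, map_zero]))

end Pool.Agent.N835.RT
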